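import Pool.Agent.Work.MP_a60482_dg.Contract

/-!
From one degree in one dimension to all lower degrees in all dimensions.
-/

open CategoryTheory MonoidalCategory CartesianMonoidalCategory

universe u v w x b

namespace Pool.Std

open Pool.KC Pool.SL

variable {V : Type u} [Category.{v} V] [CartesianMonoidalCategory V] {K : Type x} [Field K]
variable {T : WeilTheory.{u, v, w, x} V K} [CharZero K] {R : Cyc T}

/-- every variety of dimension at least two has very general sections -/
structure LowSections (G : Pl.{u, v, w, x, b} R) : Prop where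
  bund : ∀ X : V, Nonempty (G.Bund X)
  sect : ∀ (X : V) (M : G.Bund X), 2 ≤ T.dim X → ∃ (S : Sect R (G.c M)) (N : G.Bund S.Y),
    G.c N = T.pull S.i (G.c M) ∧ SpreadI R S.i

variable {G : Pl.{u, v, w, x, b} R}

/-- a curve with non-trivial `H^1` -/
theorem exists_curve (hR : R.Div) (hc : Conn T) (hS : LowSections G) :
    ∃ (P : V) (_ : G.Bund P), T.dim P = 1 ∧ R.KunI 1 P ∧ T.proj P 1 ≠ 0 := by
  have h2 : T.dim (G.P1 ⊗ G.P1) = 2 := by rw [T.dim_prod, G.P_dim]
  obtain ⟨S, N, hN, _⟩ := hS.sect (G.P1 ⊗ G.P1) (G.box G.O1 G.O1) (by omega)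
  have hd := S.dim
  have hd1 : T.dim S.Y = 1 := by omega
  refine ⟨S.Y, N, hd1, ?_, ?_⟩
  · refine Pl.kunI_of_lefI N ?_ 1
    intro i hi
    have hi0 : i = 0 := by omega
    subst hi0
    exact Pl.lefI_zero hR N (hc S.Y).1 (hc S.Y).2
  · intro h0
    have h1 := congrArg (fun f : T.H S.Y →ₗ[K] T.H S.Y => f S.v) h0
    have h3 : T.proj S.Y 1 S.v = S.v := T.proj_same (T.deg_of_eq S.v_mem hd1)
    apply S.v_ne
    rw [← h3]
    exact h1

/-- the inverse on `H^(n-1)` in dimension `n` gives the inverses in all lower degrees -/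
theorem lefI_all (hR : R.Div) (hc : Conn T) (hS : LowSections G) {n : ℕ}
    (h : ∀ (X : V) (M : G.Bund X), T.dim X = n → G.LefI (n - 1) M) :
    ∀ i < n, ∀ (X : V) (M : G.Bund X), G.LefI i M := by
  obtain ⟨P, N, hP1, hPk, hPn⟩ := exists_curve hR hc hS
  have hdown : ∀ t i : ℕ, i + 1 + t = n → ∀ (X : V) (M : G.Bund X), T.dim X = i + 1 →
      G.LefI i M := by
    intro t
    induction t with
    | zero =>
      intro i hi X M hX
      have h1 := h X M (by omega)
      rwa [show n - 1 = i by omega] at h1
    | succ t ih =>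
      intro i hi X M hX
      exact lefI_descend hR hP1 N hPk hPn (m := i + 1) (by omega)
        (fun Y L hY => ih (i + 1) (by omega) Y L hY) X M hX
  intro i hi
  have hup : ∀ d : ℕ, ∀ (X : V) (M : G.Bund X), T.dim X = i + 1 + d → G.LefI i M := by
    intro d
    induction d with
    | zero => intro X M hX; exact hdown (n - 1 - i) i (by omega) X M hX
    | succ d ih =>
      intro X M hX
      obtain ⟨S, L, hL, hs⟩ := hS.sect X M (by omega)
      have hd := S.dim
      exact S.lefI_up L hL hs (by omega) (ih S.Y L (by omega))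
  intro X M
  rcases Nat.lt_trichotomy (T.dim X) i with h1 | h1 | h1
  · intro h2
    omega
  · rw [← h1]
    exact Pl.lefI_mid M
  · exact hup (T.dim X - (i + 1)) X M (by omega)

/-- the projector of degree `n - 1` in dimension `n` gives the projectors of all lower degrees -/
theorem kunI_all_dim (hR : R.Div) (hc : Conn T) (hS : LowSections G) {n : ℕ}
    (h : ∀ X : V, T.dim X = n → R.KunI (n - 1) X) : ∀ i < n, ∀ X : V, R.KunI i X := by
  obtain ⟨P, N, hP1, hPk, hPn⟩ := exists_curve hR hc hS
  have hdown : ∀ t i : ℕ, i + 1 + t = n → ∀ X : V, T.dim X = i + 1 → R.KunI i X := by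
    intro t
    induction t with
    | zero =>
      intro i hi X hX
      have h1 := h X (by omega)
      rwa [show n - 1 = i by omega] at h1
    | succ t ih =>
      intro i hi X hX
      exact kunI_descend hR hP1 hPk hPn (m := i + 1) (by omega)
        (fun Y hY => ih (i + 1) (by omega) Y hY) X hX
  have hup : ∀ i < n, ∀ d : ℕ, ∀ X : V, T.dim X = i + 1 + d → R.KunI i X := by
    intro i hi d
    induction d with
    | zero => intro X hX; exact hdown (n - 1 - i) i (by omega) X hX
    | succ d ih =>
      intro X hX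
      obtain ⟨M⟩ := hS.bund X
      obtain ⟨S, L, hL, hs⟩ := hS.sect X M (by omega)
      have hd := S.dim
      exact S.kunI_up (by omega) (ih S.Y (by omega))
  intro i hi X
  rcases Nat.lt_or_ge i (T.dim X) with h1 | h1
  · exact hup i hi (T.dim X - (i + 1)) X (by omega)
  · refine Cyc.kunI_all ?_ i
    intro j hj
    exact hup j (by omega) (T.dim X - (j + 1)) X (by omega)

end Pool.Std
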