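import Pool.Agent.Work.StdConj01.Api

/-!
# The standard conjectures degree by degree

`WeilCoh.KunnethIn D i X`: the projector of `H(X)` onto `H^i(X)` is algebraic.

`Polarization.LefschetzIn G i M`: the inverse of the Lefschetz isomorphism
`H^i(X) → H^(2 dim X - i)(X)` is algebraic.

`Polarization.Spreads G i`: spreading of cycles of codimension less than `dim Y` on `Y × Y`.
-/

open CategoryTheory MonoidalCategory CartesianMonoidalCategory

universe u v w x b

namespace Pool.Std

variable {V : Type u} [Category.{v} V] [CartesianMonoidalCategory V] {K : Type x} [Field K]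

/-- **The Kuenneth standard conjecture in degree `i`** for `X`: the projector of `H(X)` onto
`H^i(X)` is given by an algebraic class. -/
def WeilCoh.KunnethIn (D : WeilCoh.{u, v, w, x} V K) (i : ℕ) (X : V) : Prop :=
  ∃ z ∈ D.alg (X ⊗ X) (D.dim X), (∀ a ∈ D.deg X i, D.act z a = a) ∧
    ∀ j : ℕ, j ≠ i → ∀ a ∈ D.deg X j, D.act z a = 0

namespace Polarization

variable {D : WeilCoh.{u, v, w, x} V K} (G : Polarization.{u, v, w, x, b} D)

/-- **The Lefschetz standard conjecture in degree `i`** for the polarization `M` of `X`: if
`i ≤ dim X`, some algebraic class of codimension `i` on `X × X` acts on `H^(2 dim X - i)(X)` as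
the inverse of the Lefschetz isomorphism `H^i(X) → H^(2 dim X - i)(X)`,
`a ↦ ξ^(dim X - i) a`, where `ξ = c M`. -/
def LefschetzIn (i : ℕ) {X : V} (M : G.Bund X) : Prop :=
  i ≤ D.dim X → ∃ z ∈ D.alg (X ⊗ X) i,
    ∀ a ∈ D.deg X i, D.act z (G.c M ^ (D.dim X - i) * a) = a

/-- **Spreading of cycles**, for the embedding `i` of a very general hypersurface section `Y` of
`X`: an algebraic class of codimension less than `dim Y` on `Y × Y` has the same intersection
numbers with all the classes `i^* a × i^* b` as the restriction of an algebraic class on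
`X × X`. -/
def Spreads {X Y : V} (i : Y ⟶ X) : Prop :=
  ∀ k < D.dim Y, ∀ z ∈ D.alg (Y ⊗ Y) k, ∃ g ∈ D.alg (X ⊗ X) k, ∀ a b : D.H X,
    D.int (D.cross (D.pb i a) (D.pb i b) * z) =
      D.int (D.cross (D.pb i a) (D.pb i b) * D.pb (square i) g)

/-- Every `X` of dimension at least two has very general hypersurface sections with spreading
of cycles (true over every algebraically closed field of infinite transcendence degree over its
prime field). -/
def HasSpreadingSections : Prop :=
  ∀ (X : V) (M : G.Bund X), 2 ≤ D.dim X →
    ∃ (Y : V) (i : Y ⟶ X), G.VeryGeneral M i ∧ Spreads (D := D) i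

end Polarization

end Pool.Std
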