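import Pool.Agent.Work.MP_a60482_dg.Up

/-!
Partial traces: from the product with a curve to the variety, in a fixed degree.
-/

open CategoryTheory MonoidalCategory CartesianMonoidalCategory

universe u v w x b

namespace Pool.Std

open Pool.KC Pool.SL

variable {V : Type u} [Category.{v} V] [CartesianMonoidalCategory V] {K : Type x} [Field K]
variable {T : WeilTheory.{u, v, w, x} V K} {R : Cyc T} {G : Pl.{u, v, w, x, b} R}

/-- contraction of `z` with a class on `P × P` -/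
noncomputable def ctr (T : WeilTheory.{u, v, w, x} V K) {X P : V} (z : T.H ((X ⊗ P) ⊗ (X ⊗ P)))
    (e : T.H (P ⊗ P)) : T.H (X ⊗ X) :=
  T.push (P ⊗ P) (X ⊗ X) (T.pull (Cohomology.mix P X).hom z *
    T.pull (fst (P ⊗ P) (X ⊗ X)) e)

theorem ctr_mem {X P : V} {r t : ℕ} {z : T.H ((X ⊗ P) ⊗ (X ⊗ P))} {e : T.H (P ⊗ P)}
    (hz : z ∈ R.A _ r) (he : e ∈ R.A (P ⊗ P) (T.dim P)) (h : r = T.dim P + t) :
    ctr T z e ∈ R.A (X ⊗ X) t := by
  apply R.push
  refine R.of_eq (R.mul (R.pull (Cohomology.mix P X).hom hz) (R.pull (fst _ _) he)) ?_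
  rw [T.dim_prod]
  omega

theorem tr_ctr {X P : V} {n m l : ℕ} {z : T.H ((X ⊗ P) ⊗ (X ⊗ P))}
    (hz : z ∈ T.deg _ (2 * n)) {y q : T.H P} (hq : q ∈ T.deg P m) (a : T.H X) {c : T.H X}
    (hc : c ∈ T.deg X l) :
    T.tr X (T.act (ctr T z (T.pull (fst P P) y * T.pull (snd P P) q)) a * c) =
      (-1) ^ (m * l) * T.tr (X ⊗ P) (T.act z (T.pull (fst X P) a * T.pull (snd X P) y) *
        (T.pull (fst X P) c * T.pull (snd X P) q)) := by
  have hzc : ∀ t, T.pull (Cohomology.mix P X).hom z * t =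
      t * T.pull (Cohomology.mix P X).hom z := fun t => T.even_comm (T.pull_deg _ hz) t
  unfold ctr
  rw [T.tr_act, ← T.push_snd_mul, ← T.push_mul_snd, T.tr_push, T.tr_act,
    ← T.tr_iso (Cohomology.mix P X)]
  simp only [map_mul, T.pull_comp']
  have e1 : (Cohomology.mix P X).hom ≫ fst (X ⊗ P) (X ⊗ P) ≫ fst X P =
      snd (P ⊗ P) (X ⊗ X) ≫ fst X X := by simp [Cohomology.mix]
  have e2 : (Cohomology.mix P X).hom ≫ fst (X ⊗ P) (X ⊗ P) ≫ snd X P =
      fst (P ⊗ P) (X ⊗ X) ≫ fst P P := by simp [Cohomology.mix]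
  have e3 : (Cohomology.mix P X).hom ≫ snd (X ⊗ P) (X ⊗ P) ≫ fst X P =
      snd (P ⊗ P) (X ⊗ X) ≫ snd X X := by simp [Cohomology.mix]
  have e4 : (Cohomology.mix P X).hom ≫ snd (X ⊗ P) (X ⊗ P) ≫ snd X P =
      fst (P ⊗ P) (X ⊗ X) ≫ snd P P := by simp [Cohomology.mix]
  rw [e1, e2, e3, e4]
  have h1 := T.comm (T.pull_deg (fst (P ⊗ P) (X ⊗ X) ≫ snd P P) hq)
    (T.pull_deg (snd (P ⊗ P) (X ⊗ X) ≫ snd X X) hc)
  rw [T.neg_pow_smul] at h1
  have h2 : T.pull (snd (P ⊗ P) (X ⊗ X) ≫ fst X X) a * (T.pull (Cohomology.mix P X).hom z *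
      (T.pull (fst (P ⊗ P) (X ⊗ X) ≫ fst P P) y *
        T.pull (fst (P ⊗ P) (X ⊗ X) ≫ snd P P) q)) *
      T.pull (snd (P ⊗ P) (X ⊗ X) ≫ snd X X) c =
      (-1 : K) ^ (m * l) •
      (T.pull (snd (P ⊗ P) (X ⊗ X) ≫ fst X X) a *
        T.pull (fst (P ⊗ P) (X ⊗ X) ≫ fst P P) y * T.pull (Cohomology.mix P X).hom z *
        (T.pull (snd (P ⊗ P) (X ⊗ X) ≫ snd X X) c *
          T.pull (fst (P ⊗ P) (X ⊗ X) ≫ snd P P) q)) :=
    mix_aux _ _ _ _ _ _ hzc h1
  rw [h2, map_smul, smul_eq_mul]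

/-- partial trace of an operator which is `a ↦ x` tensor the identity of `H^j(P)` -/
theorem act_ctr {X P : V} {n j : ℕ} (hj : j ≤ 2 * T.dim P)
    {z : T.H ((X ⊗ P) ⊗ (X ⊗ P))} (hz : z ∈ T.deg _ (2 * n)) {a x : T.H X}
    (h : ∀ y ∈ T.deg P j, T.act z (T.pull (fst X P) a * T.pull (snd X P) y) =
      T.pull (fst X P) x * T.pull (snd X P) y) (e : T.H (P ⊗ P)) :
    T.act (ctr T z (T.component P P j (2 * T.dim P - j) e)) a =
      T.tr P (T.pull (lift (𝟙 P) (𝟙 P)) (T.component P P j (2 * T.dim P - j) e)) • x := by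
  refine T.kind (P := fun e => T.act (ctr T z (T.component P P j (2 * T.dim P - j) e)) a =
      T.tr P (T.pull (lift (𝟙 P) (𝟙 P)) (T.component P P j (2 * T.dim P - j) e)) • x)
      (by simp [ctr, T.act_zero]) ?_ ?_ e
  · intro y0 q0
    rw [T.component_pure]
    have hy := T.proj_mem (X := P) j y0
    have hq := T.proj_mem (X := P) (2 * T.dim P - j) q0
    generalize T.proj P j y0 = y at hy
    generalize T.proj P (2 * T.dim P - j) q0 = q at hq
    rw [← sub_eq_zero]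
    apply T.nondeg'
    intro c
    refine T.hind (P := fun c => T.tr X ((T.act (ctr T z (T.pull (fst P P) y *
      T.pull (snd P P) q)) a - T.tr P (T.pull (lift (𝟙 P) (𝟙 P)) (T.pull (fst P P) y *
      T.pull (snd P P) q)) • x) * c) = 0) (by simp) ?_ ?_ c
    · intro l c hc
      rw [sub_mul, map_sub, tr_ctr hz hq a hc, h y hy, smul_mul_assoc, map_smul, smul_eq_mul,
        map_mul (T.pull (lift (𝟙 P) (𝟙 P))),
        T.pull_comp', T.pull_comp', lift_fst, lift_snd, T.pull_id, T.pull_id, sub_eq_zero]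
      have h3 := T.comm (T.snd_deg (X := X) hy) (T.fst_deg (Y := P) hc)
      rw [T.neg_pow_smul] at h3
      have h4 : T.pull (fst X P) x * T.pull (snd X P) y *
          (T.pull (fst X P) c * T.pull (snd X P) q) =
          (-1 : K) ^ (j * l) • (T.pull (fst X P) (x * c) * T.pull (snd X P) (y * q)) := by
        rw [mul_assoc, ← mul_assoc (T.pull (snd X P) y), h3, map_mul, map_mul]
        simp only [smul_mul_assoc, mul_smul_comm, mul_assoc]
      rw [h4, map_smul, T.tr_prod, smul_eq_mul]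
      have h5 : (-1 : K) ^ ((2 * T.dim P - j) * l) * (-1) ^ (j * l) = 1 := by
        rw [← pow_add, ← add_mul, Nat.sub_add_cancel hj, mul_assoc, pow_mul]
        simp
      linear_combination (T.tr X (x * c) * T.tr P (y * q)) * h5
    · intro c d h1 h2
      rw [mul_add, map_add, h1, h2, add_zero]
  · intro e f h1 h2
    have h3 : ctr T z (T.component P P j (2 * T.dim P - j) (e + f)) =
        ctr T z (T.component P P j (2 * T.dim P - j) e) +
        ctr T z (T.component P P j (2 * T.dim P - j) f) := by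
      simp only [ctr, map_add, mul_add]
    rw [h3, T.act_add, LinearMap.add_apply, h1, h2, map_add, map_add, map_add, add_smul]

/-- partial trace of an algebraic operator -/
theorem exists_ctr [CharZero K] (hR : R.Div) {X P : V} {j : ℕ} (hj : j ≤ 2 * T.dim P)
    (hP : R.KunI (2 * T.dim P - j) P) (hne : T.proj P (2 * T.dim P - j) ≠ 0) {r t : ℕ}
    (hr : r = T.dim P + t) {u : T.H (X ⊗ P) →ₗ[K] T.H (X ⊗ P)}
    (hu : u ∈ R.Op (X ⊗ P) (X ⊗ P) r) :
    ∃ w ∈ R.Op X X t, ∀ a x : T.H X, (∀ y ∈ T.deg P j,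
      u (T.pull (fst X P) a * T.pull (snd X P) y) = T.pull (fst X P) x * T.pull (snd X P) y) →
      w a = x := by
  obtain ⟨z, hz, rfl⟩ := hu
  obtain ⟨p, hp, hp'⟩ := hP
  have hpk : p = T.kunnethComponent P (2 * T.dim P - j) := by
    apply T.act_injective
    rw [hp', T.act_kunneth (by omega)]
  have hb : T.kunnethComponent P (2 * T.dim P - j) =
      T.component P P j (2 * T.dim P - j) (T.diag P) := by
    unfold WeilTheory.kunnethComponent
    rw [show 2 * T.dim P - (2 * T.dim P - j) = j by omega]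
  have h2 := T.tr_kunneth_diag (i := 2 * T.dim P - j) (by omega) hne
  have hpull : T.pull (lift (𝟙 P) (𝟙 P)) p ∈ R.A P (T.dim P) := R.pull _ hp
  refine ⟨_, hR.op hpull (Cyc.act_mem_Op (ctr_mem hz hp hr)), ?_⟩
  intro a x hax
  have h1 := act_ctr hj (R.deg hz) hax (T.diag P)
  rw [← hb, ← hpk] at h1
  rw [← hpk] at h2
  rw [LinearMap.smul_apply, h1, smul_smul, inv_mul_cancel₀ h2, one_smul]

section Curve

variable [CharZero K]

/-- from the dimension `m + 1` to the dimension `m`, with a curve `P` -/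
theorem lefI_descend (hR : R.Div) {P : V} (hP : T.dim P = 1) (N : G.Bund P)
    (hk : R.KunI 1 P) (hne : T.proj P 1 ≠ 0) {m : ℕ} (hm : 1 ≤ m)
    (h : ∀ (X : V) (M : G.Bund X), T.dim X = m + 1 → G.LefI m M) (X : V) (M : G.Bund X)
    (hX : T.dim X = m) : G.LefI (m - 1) M := by
  intro _
  have hXP : T.dim (X ⊗ P) = m + 1 := by rw [T.dim_prod]; omega
  obtain ⟨u, hu, hu1⟩ := h (X ⊗ P) (G.box M N) hXP (by omega)
  have h2 : 2 * T.dim P - 1 = 1 := by omega
  obtain ⟨w, hw, hw1⟩ := exists_ctr hR (X := X) (P := P) (j := 1) (by omega) (by rwa [h2])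
    (by rwa [h2]) (t := m - 1) (by omega) hu
  refine ⟨w, hw, ?_⟩
  intro x hx
  apply hw1
  intro y hy
  have h3 : G.c N * y = 0 := T.deg_eq_zero (T.mul_deg (G.c_deg N) hy) (by omega)
  have h4 := Pl.box_mul' M N x y
  rw [h3, map_zero, mul_zero, add_zero] at h4
  rw [show T.dim X - (m - 1) = 1 by omega, pow_one, ← h4]
  have h5 := hu1 (T.pull (fst X P) x * T.pull (snd X P) y)
    (T.deg_of_eq (T.mul_deg (T.fst_deg hx) (T.snd_deg hy)) (by omega))
  rwa [show T.dim (X ⊗ P) - m = 1 by omega, pow_one] at h5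

theorem kunI_descend (hR : R.Div) {P : V} (hP : T.dim P = 1)
    (hk : R.KunI 1 P) (hne : T.proj P 1 ≠ 0) {m : ℕ} (hm : 1 ≤ m)
    (h : ∀ X : V, T.dim X = m + 1 → R.KunI m X) (X : V) (hX : T.dim X = m) :
    R.KunI (m - 1) X := by
  have hXP : T.dim (X ⊗ P) = m + 1 := by rw [T.dim_prod]; omega
  have hu := h (X ⊗ P) hXP
  have h2 : 2 * T.dim P - 1 = 1 := by omega
  obtain ⟨w, hw, hw1⟩ := exists_ctr hR (X := X) (P := P) (j := 1) (by omega) (by rwa [h2])
    (by rwa [h2]) (r := T.dim (X ⊗ P)) (t := m) (by omega) hu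
  refine Cyc.kunI_of (by rwa [hX]) ?_ ?_
  · intro a ha
    apply hw1
    intro y hy
    exact T.proj_same (T.deg_of_eq (T.mul_deg (T.fst_deg ha) (T.snd_deg hy)) (by omega))
  · intro l hl a ha
    apply hw1
    intro y hy
    rw [map_zero, zero_mul]
    exact T.proj_ne (T.mul_deg (T.fst_deg ha) (T.snd_deg hy)) (by omega)

end Curve

end Pool.Std
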