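import Pool.Agent.Work.StdConj01.Main

/-!
The standard conjectures degree by degree: the inverse of the Lefschetz isomorphism on `H^i`,
and the projector of degree `i`.
-/

open CategoryTheory MonoidalCategory CartesianMonoidalCategory

universe u v w x b

namespace Pool.Std

open Pool.KC Pool.SL

variable {V : Type u} [Category.{v} V] [CartesianMonoidalCategory V] {K : Type x} [Field K]
variable {T : WeilTheory.{u, v, w, x} V K}

/-- the projector of degree `i` is algebraic -/
def Cyc.KunI (R : Cyc T) (i : ℕ) (X : V) : Prop := T.proj X i ∈ R.Op X X (T.dim X)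

/-- the inverse of the Lefschetz isomorphism on `H^i` is algebraic -/
def Pl.LefI {R : Cyc T} (G : Pl.{u, v, w, x, b} R) (i : ℕ) {X : V} (M : G.Bund X) : Prop :=
  i ≤ T.dim X → ∃ u ∈ R.Op X X i, ∀ a ∈ T.deg X i, u (G.c M ^ (T.dim X - i) * a) = a

variable {R : Cyc T}

theorem Cyc.kunI_of {i : ℕ} {X : V} {u : T.H X →ₗ[K] T.H X} (hu : u ∈ R.Op X X (T.dim X))
    (h1 : ∀ a ∈ T.deg X i, u a = a) (h2 : ∀ j, j ≠ i → ∀ a ∈ T.deg X j, u a = 0) :
    R.KunI i X := by
  have h3 : T.proj X i = u := by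
    apply LinearMap.ext
    intro a
    refine T.hind (P := fun a => T.proj X i a = u a) (by simp) ?_ ?_ a
    · intro j a ha
      by_cases hj : j = i
      · subst hj
        rw [T.proj_same ha, h1 a ha]
      · rw [T.proj_ne ha hj, h2 j hj a ha]
    · intro a e h4 h5
      rw [map_add, map_add, h4, h5]
  unfold Cyc.KunI
  rw [h3]
  exact hu

theorem Cyc.kunI_iff {i : ℕ} {X : V} : R.KunI i X ↔
    ∃ z ∈ R.A (X ⊗ X) (T.dim X), (∀ a ∈ T.deg X i, T.act z a = a) ∧
      ∀ j : ℕ, j ≠ i → ∀ a ∈ T.deg X j, T.act z a = 0 := by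
  constructor
  · rintro ⟨z, hz, h⟩
    refine ⟨z, hz, fun a ha => ?_, fun j hj a ha => ?_⟩
    · rw [h, T.proj_same ha]
    · rw [h, T.proj_ne ha hj]
  · rintro ⟨z, hz, h1, h2⟩
    exact Cyc.kunI_of ⟨z, hz, rfl⟩ h1 h2

theorem Cyc.kunnethC_iff {X : V} : R.KunnethC X ↔ ∀ i, R.KunI i X :=
  forall_congr' fun _ => Cyc.kunI_iff.symm

theorem Cyc.kunI_big {i : ℕ} {X : V} (h : 2 * T.dim X < i) : R.KunI i X := by
  refine Cyc.kunI_of (zero_mem _) ?_ fun j _ a _ => rfl
  intro a ha
  rw [T.deg_eq_zero ha h, map_zero]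

/-- exchange of the factors -/
theorem swap_component {X : V} (i j : ℕ) (z : T.H (X ⊗ X)) :
    T.pull (Cohomology.swap X) (T.component X X i j z) =
      T.component X X j i (T.pull (Cohomology.swap X) z) := by
  refine T.kind' (P := fun z => T.pull (Cohomology.swap X) (T.component X X i j z) =
      T.component X X j i (T.pull (Cohomology.swap X) z)) (by simp) ?_ ?_ z
  · intro s t p q hp hq
    have h1 : ∀ (p' q' : T.H X), p' ∈ T.deg X s → q' ∈ T.deg X t →
        T.pull (Cohomology.swap X) (T.pull (fst X X) p' * T.pull (snd X X) q') =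
        (-1 : K) ^ (s * t) • (T.pull (fst X X) q' * T.pull (snd X X) p') := by
      intro p' q' hp' hq'
      rw [map_mul, T.pull_comp', T.pull_comp', lift_fst, lift_snd,
        T.comm (T.snd_deg (X := X) hp') (T.fst_deg (Y := X) hq'), T.neg_pow_smul]
    rw [h1 p q hp hq, map_smul, T.component_pure, T.component_pure]
    by_cases hs : s = i
    · by_cases ht : t = j
      · subst hs ht
        rw [T.proj_same hp, T.proj_same hq, h1 p q hp hq]
      · rw [T.proj_ne hq ht]
        simp
    · rw [T.proj_ne hp hs]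
      simp
  · intro a e h1 h2
    simp only [map_add, h1, h2]

/-- transposition -/
theorem Cyc.KunI.swap {i : ℕ} {X : V} (h : R.KunI i X) (hi : i ≤ 2 * T.dim X) :
    R.KunI (2 * T.dim X - i) X := by
  obtain ⟨z, hz, hz'⟩ := h
  have h1 : z = T.kunnethComponent X i := by
    apply T.act_injective
    rw [hz', T.act_kunneth hi]
  refine ⟨T.pull (Cohomology.swap X) z, R.pull _ hz, ?_⟩
  rw [h1]
  unfold WeilTheory.kunnethComponent
  rw [swap_component, T.swap_diag, ← T.act_kunneth (by omega)]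
  unfold WeilTheory.kunnethComponent
  rw [show 2 * T.dim X - (2 * T.dim X - i) = i by omega]

/-- the projectors below the middle degree give all projectors -/
theorem Cyc.kunI_all {X : V} (h : ∀ i < T.dim X, R.KunI i X) (i : ℕ) : R.KunI i X := by
  rcases Nat.lt_or_ge (2 * T.dim X) i with h0 | h0
  · exact Cyc.kunI_big h0
  rcases Nat.lt_trichotomy i (T.dim X) with h1 | h1 | h1
  · exact h i h1
  · have h2 : T.proj X i = LinearMap.id -
        ∑ j ∈ (Finset.range (2 * T.dim X + 1)).erase i, T.proj X j := by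
      have h3 := (T.projs X).sum
      rw [← Finset.add_sum_erase _ _ (Finset.mem_range.mpr (show i < 2 * T.dim X + 1 by omega))]
        at h3
      exact eq_sub_of_add_eq h3
    unfold Cyc.KunI
    rw [h2]
    refine sub_mem (Cyc.Op_id X) (sum_mem fun j hj => ?_)
    rw [Finset.mem_erase, Finset.mem_range] at hj
    rcases Nat.lt_or_ge j (T.dim X) with h4 | h4
    · exact h j h4
    · have h5 := (h (2 * T.dim X - j) (by omega)).swap (by omega)
      rwa [show 2 * T.dim X - (2 * T.dim X - j) = j by omega] at h5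
  · have h5 := (h (2 * T.dim X - i) (by omega)).swap (by omega)
    rwa [show 2 * T.dim X - (2 * T.dim X - i) = i by omega] at h5

variable {G : Pl.{u, v, w, x, b} R}

theorem Pl.lefI_mid {X : V} (M : G.Bund X) : G.LefI (T.dim X) M := by
  intro _
  refine ⟨LinearMap.id, Cyc.Op_id X, fun a _ => ?_⟩
  rw [Nat.sub_self, pow_zero, one_mul, LinearMap.id_apply]

/-- the Lefschetz standard conjecture gives the inverse in all degrees -/
theorem Pl.lefI_of_lefB {X : V} (M : G.Bund X) (h : G.LefB M) (i : ℕ) : G.LefI i M := by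
  intro hi
  obtain ⟨z, hz, hl⟩ := h
  have hop : ∀ r ≤ T.dim X, ((T.act z) ^ r : Module.End K (T.H X)) ∈ R.Op X X (T.dim X - r) := by
    intro r
    induction r with
    | zero => intro _; exact Cyc.Op_id X
    | succ r ih =>
      intro hr
      rw [pow_succ']
      exact Cyc.Op_comp (ih (by omega)) (Cyc.act_mem_Op hz) (by omega)
  have hfr : ∀ (r : ℕ) {d j : ℕ} {y : T.H X}, G.Prim M d y → d + (j + r) ≤ T.dim X →
      ((T.act z) ^ r : Module.End K (T.H X)) (G.c M ^ (j + r) * y) = G.c M ^ j * y := by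
    intro r
    induction r with
    | zero => intro d j y _ _; simp
    | succ r ih =>
      intro d j y hy hij
      rw [pow_succ, Module.End.mul_apply, ← Nat.add_assoc, (hl d y hy).2 (j + r) (by omega)]
      exact ih hy (by omega)
  refine ⟨_, Cyc.Op_of_eq (hop (T.dim X - i) (by omega)) (show T.dim X - (T.dim X - i) = i by
    omega), ?_⟩
  have key : ∀ a : T.H X, ((T.act z) ^ (T.dim X - i) : Module.End K (T.H X))
      (G.c M ^ (T.dim X - i) * T.proj X i a) = T.proj X i a := by
    intro a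
    refine Pl.prim_ind M (P := fun a => ((T.act z) ^ (T.dim X - i) : Module.End K (T.H X))
      (G.c M ^ (T.dim X - i) * T.proj X i a) = T.proj X i a) (by simp) ?_ ?_ a
    · intro d y hy j hj
      have h1 : G.c M ^ j * y ∈ T.deg X (d + 2 * j) :=
        T.deg_of_eq (T.mul_deg (G.c_pow_deg M j) hy.2.1) (by omega)
      by_cases h2 : d + 2 * j = i
      · rw [h2] at h1
        rw [T.proj_same h1, ← mul_assoc, ← pow_add, Nat.add_comm _ j]
        exact hfr _ hy (by omega)
      · rw [T.proj_ne h1 h2]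
        simp
    · intro a e h1 h2
      rw [map_add, mul_add, map_add, h1, h2]
  intro a ha
  have h1 := key a
  rwa [T.proj_same ha] at h1

/-- the inverses in the degrees below the middle give the projectors -/
theorem Pl.kunI_of_lefI {X : V} (M : G.Bund X) (h : ∀ i < T.dim X, G.LefI i M) (i : ℕ) :
    R.KunI i X := by
  refine Cyc.kunI_all ?_ i
  clear i
  intro i
  induction i using Nat.strong_induction_on with
  | _ i ih =>
    intro hi
    obtain ⟨θ, hθ, hθ1⟩ := h i hi (by omega)
    set low : T.H X →ₗ[K] T.H X := LinearMap.id - ∑ j ∈ Finset.range i, T.proj X j with hlow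
    set high : T.H X →ₗ[K] T.H X :=
      LinearMap.id - ∑ j ∈ Finset.range i, T.proj X (2 * T.dim X - j) with hhigh
    have hlowm : low ∈ R.Op X X (T.dim X) := by
      refine sub_mem (Cyc.Op_id X) (sum_mem fun j hj => ?_)
      rw [Finset.mem_range] at hj
      exact ih j hj (by omega)
    have hhighm : high ∈ R.Op X X (T.dim X) := by
      refine sub_mem (Cyc.Op_id X) (sum_mem fun j hj => ?_)
      rw [Finset.mem_range] at hj
      exact (ih j hj (by omega)).swap (by omega)
    have hlow1 : ∀ k < i, ∀ a ∈ T.deg X k, low a = 0 := by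
      intro k hk a ha
      rw [hlow, LinearMap.sub_apply, LinearMap.id_apply, LinearMap.sum_apply,
        Finset.sum_eq_single k, T.proj_same ha, sub_self]
      · intro j _ hj
        exact T.proj_ne ha (Ne.symm hj)
      · intro h1
        exact absurd (Finset.mem_range.mpr hk) h1
    have hlow2 : ∀ k, i ≤ k → ∀ a ∈ T.deg X k, low a = a := by
      intro k hk a ha
      rw [hlow, LinearMap.sub_apply, LinearMap.id_apply, LinearMap.sum_apply,
        Finset.sum_eq_zero, sub_zero]
      intro j hj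
      rw [Finset.mem_range] at hj
      exact T.proj_ne ha (by omega)
    have hhigh1 : ∀ k < i, ∀ a ∈ T.deg X (2 * T.dim X - k), high a = 0 := by
      intro k hk a ha
      rw [hhigh, LinearMap.sub_apply, LinearMap.id_apply, LinearMap.sum_apply,
        Finset.sum_eq_single k, T.proj_same ha, sub_self]
      · intro j hj hjk
        rw [Finset.mem_range] at hj
        exact T.proj_ne ha (by omega)
      · intro h1
        exact absurd (Finset.mem_range.mpr hk) h1
    have hhigh2 : ∀ a ∈ T.deg X (2 * T.dim X - i), high a = a := by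
      intro a ha
      rw [hhigh, LinearMap.sub_apply, LinearMap.id_apply, LinearMap.sum_apply,
        Finset.sum_eq_zero, sub_zero]
      intro j hj
      rw [Finset.mem_range] at hj
      exact T.proj_ne ha (by omega)
    set Lk : T.H X →ₗ[K] T.H X := LinearMap.mulLeft K (G.c M ^ (T.dim X - i)) with hLk
    have hLkm : Lk ∈ R.Op X X (T.dim X + (T.dim X - i)) := Cyc.Op_mul (G.c_pow_mem M _)
    have hLkd : ∀ k, ∀ a ∈ T.deg X k, Lk a ∈ T.deg X (k + 2 * (T.dim X - i)) := fun k a ha =>
      T.deg_of_eq (T.mul_deg (G.c_pow_deg M _) ha) (by omega)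
    have hmem : θ ∘ₗ (high ∘ₗ (Lk ∘ₗ low)) ∈ R.Op X X (T.dim X) := by
      have e1 := Cyc.Op_comp hlowm hLkm (t := T.dim X + (T.dim X - i)) rfl
      have e2 := Cyc.Op_comp e1 hhighm (t := T.dim X + (T.dim X - i)) (by omega)
      exact Cyc.Op_comp e2 hθ (by omega)
    refine Cyc.kunI_of hmem ?_ ?_
    · intro a ha
      change θ (high (Lk (low a))) = a
      rw [hlow2 i le_rfl a ha, hhigh2 _ (T.deg_of_eq (hLkd i a ha) (by omega))]
      exact hθ1 a ha
    · intro k hk a ha
      change θ (high (Lk (low a))) = 0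
      rcases Nat.lt_or_ge k i with h1 | h1
      · rw [hlow1 k h1 a ha, map_zero, map_zero, map_zero]
      · rw [hlow2 k h1 a ha]
        rcases Nat.lt_or_ge (2 * T.dim X) (k + 2 * (T.dim X - i)) with h2 | h2
        · rw [T.deg_eq_zero (hLkd k a ha) h2, map_zero, map_zero]
        · rw [hhigh1 (2 * i - k) (by omega) _ (T.deg_of_eq (hLkd k a ha) (by omega)), map_zero]

/-- the inverses in the degrees below the middle give the Lefschetz standard conjecture -/
theorem Pl.lefB_of_lefI {X : V} (M : G.Bund X) (h : ∀ i < T.dim X, G.LefI i M) : G.LefB M := by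
  classical
  rcases Nat.eq_zero_or_pos (T.dim X) with h00 | h00
  · refine ⟨0, zero_mem _, ?_⟩
    intro i y _
    rw [T.act_zero]
    exact ⟨rfl, fun j hj => by omega⟩
  set n := T.dim X with hn
  have hkun : ∀ i, T.proj X i ∈ R.Op X X n := Pl.kunI_of_lefI M h
  have hex : ∀ i : ℕ, ∃ l : T.H X →ₗ[K] T.H X, i < n →
      (l ∈ R.Op X X i ∧ ∀ a ∈ T.deg X i, l (G.c M ^ (n - i) * a) = a) := by
    intro i
    by_cases hi : i < n
    · obtain ⟨l, h1, h2⟩ := h i hi (by omega)
      exact ⟨l, fun _ => ⟨h1, h2⟩⟩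
    · exact ⟨0, fun h => absurd h hi⟩
  choose θ hθ using hex
  let piece : ℕ → (T.H X →ₗ[K] T.H X) := fun s =>
    if s < 2 then 0 else if s ≤ n then θ (s - 2) ∘ₗ LinearMap.mulLeft K (G.c M ^ (n - s + 1))
    else LinearMap.mulLeft K (G.c M ^ (s - n - 1)) ∘ₗ θ (2 * n - s)
  let lam : T.H X →ₗ[K] T.H X := ∑ s ∈ Finset.range (2 * n + 1), piece s ∘ₗ T.proj X s
  have hlam : ∀ s, s ≤ 2 * n → ∀ a ∈ T.deg X s, lam a = piece s a := by
    intro s hs a ha
    change (∑ s ∈ Finset.range (2 * n + 1), piece s ∘ₗ T.proj X s) a = _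
    rw [LinearMap.sum_apply, Finset.sum_eq_single s]
    · rw [LinearMap.comp_apply, T.proj_same ha]
    · intro t _ hts
      rw [LinearMap.comp_apply, T.proj_ne ha (Ne.symm hts), map_zero]
    · intro h
      exact absurd (Finset.mem_range.2 (by omega)) h
  have hp0 : ∀ s < 2, ∀ a, piece s a = 0 := by
    intro s hs a
    simp only [piece, if_pos hs]
    rfl
  have hp1 : ∀ s, 2 ≤ s → s ≤ n → ∀ a, piece s a = θ (s - 2) (G.c M ^ (n - s + 1) * a) := by
    intro s hs hs' a
    simp only [piece, if_neg (show ¬ s < 2 by omega), if_pos hs']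
    rfl
  have hp2 : ∀ s, 2 ≤ s → n < s → ∀ a, piece s a = G.c M ^ (s - n - 1) * θ (2 * n - s) a := by
    intro s hs hs' a
    simp only [piece, if_neg (show ¬ s < 2 by omega), if_neg (show ¬ s ≤ n by omega)]
    rfl
  have hmem : lam ∈ R.Op X X (n - 1) := by
    refine sum_mem fun s hs => ?_
    rw [Finset.mem_range] at hs
    by_cases h2 : s < 2
    · have e0 : piece s ∘ₗ T.proj X s = 0 := by
        apply LinearMap.ext
        intro a
        exact hp0 s h2 _
      rw [e0]
      exact zero_mem _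
    · by_cases h3 : s ≤ n
      · have e0 : piece s = θ (s - 2) ∘ₗ LinearMap.mulLeft K (G.c M ^ (n - s + 1)) := by
          simp only [piece, if_neg h2, if_pos h3]
        rw [e0, LinearMap.comp_assoc]
        have e1 := Cyc.Op_comp (hkun s) (Cyc.Op_mul (G.c_pow_mem M (n - s + 1)))
          (t := n + (n - s + 1)) (by omega)
        exact Cyc.Op_comp e1 (hθ (s - 2) (by omega)).1 (by omega)
      · have e0 : piece s = LinearMap.mulLeft K (G.c M ^ (s - n - 1)) ∘ₗ θ (2 * n - s) := by
          simp only [piece, if_neg h2, if_neg h3]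
        rw [e0, LinearMap.comp_assoc]
        have e1 := Cyc.Op_comp (hkun s) (hθ (2 * n - s) (by omega)).1
          (t := 2 * n - s) (by omega)
        exact Cyc.Op_comp e1 (Cyc.Op_mul (G.c_pow_mem M (s - n - 1))) (by omega)
  obtain ⟨z, hz, hzl⟩ := hmem
  refine ⟨z, hz, ?_⟩
  intro i y hy
  rw [hzl]
  obtain ⟨hi, hyi, hyk⟩ := hy
  constructor
  · rw [hlam i (by omega) y hyi]
    rcases Nat.lt_or_ge i 2 with h2 | h2
    · exact hp0 i h2 y
    · rw [hp1 i h2 hi, ← hn] at *
      rw [hyk, map_zero]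
  · intro j hj
    have hdj : ∀ t, G.c M ^ t * y ∈ T.deg X (2 * t + i) := fun t =>
      T.mul_deg (G.c_pow_deg M t) hyi
    have h1 : G.c M ^ (j + 1) * y ∈ T.deg X (i + 2 * (j + 1)) :=
      T.deg_of_eq (hdj (j + 1)) (by omega)
    rw [hlam (i + 2 * (j + 1)) (by omega) _ h1]
    rcases Nat.lt_or_ge n (i + 2 * (j + 1)) with h3 | h3
    · rw [hp2 _ (by omega) h3]
      obtain ⟨t, ht⟩ : ∃ t, i + 2 * (j + 1) = n + t := ⟨i + 2 * (j + 1) - n, by omega⟩
      have h4 : G.c M ^ (j + 1) * y =
          G.c M ^ (n - (2 * n - (i + 2 * (j + 1)))) * (G.c M ^ (j + 1 - t) * y) := by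
        rw [← mul_assoc, ← pow_add]
        congr 2
        omega
      rw [h4, (hθ _ (by omega)).2 _ (T.deg_of_eq (hdj (j + 1 - t)) (by omega)), ← mul_assoc,
        ← pow_add]
      congr 2
      omega
    · rw [hp1 _ (by omega) h3]
      have h4 : G.c M ^ (n - (i + 2 * (j + 1)) + 1) * (G.c M ^ (j + 1) * y) =
          G.c M ^ (n - (i + 2 * (j + 1) - 2)) * (G.c M ^ j * y) := by
        rw [← mul_assoc, ← mul_assoc, ← pow_add, ← pow_add]
        congr 2
        omega
      rw [h4, (hθ _ (by omega)).2 _ (T.deg_of_eq (hdj j) (by omega))]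

/-- degree zero, for connected varieties -/
theorem Pl.lefI_zero (hR : R.Div) {X : V} (M : G.Bund X) (h1 : (1 : T.H X) ≠ 0)
    (h0 : ∀ a ∈ T.deg X 0, ∃ s : K, a = s • (1 : T.H X)) : G.LefI 0 M := by
  intro _
  have ht := tr_pow_ne M h1 h0
  refine ⟨_, hR.op (G.c_pow_mem M (T.dim X)) ⟨1, R.one (X ⊗ X), rfl⟩, ?_⟩
  intro a ha
  obtain ⟨s, rfl⟩ := h0 a ha
  have h2 : T.act (1 : T.H (X ⊗ X)) (G.c M ^ T.dim X) = T.tr X (G.c M ^ T.dim X) • 1 := by
    have h3 := T.act_pure (1 : T.H X) (1 : T.H X) (G.c M ^ T.dim X)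
    rwa [map_one, map_one, one_mul, mul_one] at h3
  rw [Nat.sub_zero, mul_smul_comm, mul_one, LinearMap.smul_apply, map_smul, h2, smul_comm,
    smul_smul, smul_smul, mul_assoc, inv_mul_cancel₀ ht, mul_one]

end Pool.Std
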