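import Pool.Agent.Work.StdConj01.Final
import Pool.Agent.Work.MP_a60482_dg.Api
import Pool.Agent.Work.MP_a60482_dg.All

/-!
The statements of the hand-in.
-/

open CategoryTheory MonoidalCategory CartesianMonoidalCategory

universe u v w x y b

namespace Pool.Std

open Pool.KC

variable {V : Type u} [Category.{v} V] [CartesianMonoidalCategory V] {K : Type x} [Field K]

theorem WeilCoh.kunnethIn_iff {D : WeilCoh.{u, v, w, x} V K} (h : D.IsWeil) (i : ℕ) (X : V) :
    D.KunnethIn i X ↔ (toCyc h).KunI i X := by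
  rw [Cyc.kunI_iff]
  constructor
  · rintro ⟨z, hz, h1, h2⟩
    exact ⟨z, hz, fun a ha => (act_eq h z a).trans (h1 a ha),
      fun j hj a ha => (act_eq h z a).trans (h2 j hj a ha)⟩
  · rintro ⟨z, hz, h1, h2⟩
    exact ⟨z, hz, fun a ha => (act_eq h z a).symm.trans (h1 a ha),
      fun j hj a ha => (act_eq h z a).symm.trans (h2 j hj a ha)⟩

namespace Polarization

variable [CharZero K] {F : Type y} [Field F] [Algebra F K]
variable {D : WeilCoh.{u, v, w, x} V K} {G : Polarization.{u, v, w, x, b} D}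

omit [CharZero K] in
theorem lefschetzIn_iff (h : D.IsWeil) (hP : G.IsPolarized) (i : ℕ) {X : V} (M : G.Bund X) :
    G.LefschetzIn i M ↔ (toPl h hP).LefI i M := by
  unfold LefschetzIn Pl.LefI
  refine imp_congr_right fun _ => ?_
  constructor
  · rintro ⟨z, hz, h1⟩
    exact ⟨_, ⟨z, hz, rfl⟩, fun a ha => (WeilCoh.act_eq h z _).trans (h1 a ha)⟩
  · rintro ⟨_, ⟨z, hz, rfl⟩, h1⟩
    exact ⟨z, hz, fun a ha => (WeilCoh.act_eq h z _).symm.trans (h1 a ha)⟩

theorem HasSpreadingSections.sections (hS : G.HasSpreadingSections) : G.HasSections := by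
  intro X M m hm hX
  obtain ⟨Y, i, hY, _⟩ := hS X M (by omega)
  exact ⟨Y, i, hY⟩

theorem HasSpreadingSections.hypersurfaces (hS : G.HasSpreadingSections) :
    G.HasHypersurfaces := by
  intro X M hX
  obtain ⟨Y, i, hY, _⟩ := hS X M hX
  exact ⟨Y, i, hY.dim, hY.chern, hY.int, hY.weak⟩

theorem lowSections (h : D.IsWeil) (hP : G.IsPolarized) (hS : G.HasSpreadingSections) :
    LowSections (toPl h hP) where
  bund := hP.exists_bundle
  sect := by
    intro X M hX
    obtain ⟨Y, i, hY, hs⟩ := hS X M hX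
    obtain ⟨N, hN⟩ := hY.chern
    exact ⟨hY.toSect h hP, N, hN, hs⟩

/-- the local statement -/
theorem local_iff (h : D.IsWeil) (hP : G.IsPolarized) {X Y : V} {M : G.Bund X} {N : G.Bund Y}
    {j : Y ⟶ X} (hY : G.VeryGeneral M j) (hs : Spreads (D := D) j)
    (hN : G.c N = D.pb j (G.c M)) {i : ℕ} (hi : i < D.dim Y) :
    (G.LefschetzIn i M ↔ G.LefschetzIn i N) ∧ (D.KunnethIn i Y → D.KunnethIn i X) := by
  rw [lefschetzIn_iff h hP, lefschetzIn_iff h hP, WeilCoh.kunnethIn_iff h,
    WeilCoh.kunnethIn_iff h]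
  refine ⟨⟨fun h1 => ?_, fun h1 => ?_⟩, fun h1 => ?_⟩
  · exact (hY.toSect h hP).lefI_down (G := toPl h hP) (M := M) N hN hi h1
  · exact (hY.toSect h hP).lefI_up (G := toPl h hP) (M := M) N hN hs hi h1
  · exact (hY.toSect h hP).kunI_up (G := toPl h hP) (M := M) hi h1

/-- the Lefschetz standard conjecture, degree by degree -/
theorem tfae_lef (h : D.IsWeil) (hF : D.CoefficientsIn F) (hc : D.Connected)
    (hP : G.IsPolarized) (hS : G.HasSpreadingSections) {n : ℕ} (hn : 1 ≤ n) :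
    [∀ (X : V) (M : G.Bund X), D.dim X ≤ n → G.ConjB M,
      ∀ (X : V) (M : G.Bund X), D.dim X = n → G.LefschetzIn (n - 1) M,
      ∀ i < n, ∀ (X : V) (M : G.Bund X), G.LefschetzIn i M,
      G.ForSections n D.ConjC, G.ForSections n D.SignConj,
      G.ForSections n fun Y => D.Separated Y (2 * n - 2) (2 * n - 1)].TFAE := by
  have h0 := tfae_dim h hF hc hP hS.hypersurfaces hS.sections hn
  tfae_have 1 ↔ 4 := h0.out 0 1
  tfae_have 1 ↔ 5 := h0.out 0 2
  tfae_have 1 ↔ 6 := h0.out 0 3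
  tfae_have 1 → 2 := by
    intro hB X M hX
    rw [lefschetzIn_iff h hP]
    exact Pl.lefI_of_lefB (G := toPl h hP) M ((conjB_iff h hP M).mp (hB X M (by omega))) _
  tfae_have 2 → 3 := by
    intro hL i hi X M
    rw [lefschetzIn_iff h hP]
    refine lefI_all (G := toPl h hP) (hF.div h) hc (lowSections h hP hS) (n := n) ?_ i hi X M
    intro Y L hY
    exact (lefschetzIn_iff h hP _ L).mp (hL Y L hY)
  tfae_have 3 → 1 := by
    intro hL X M hX
    rw [conjB_iff h hP]
    refine Pl.lefB_of_lefI (G := toPl h hP) M ?_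
    intro i hi
    have hi' : i < D.dim X := hi
    exact (lefschetzIn_iff h hP i M).mp (hL i (by omega) X M)
  tfae_finish

/-- the Kuenneth standard conjecture, degree by degree -/
theorem tfae_kun (h : D.IsWeil) (hF : D.CoefficientsIn F) (hc : D.Connected)
    (hP : G.IsPolarized) (hS : G.HasSpreadingSections) {n : ℕ} (hn : 1 ≤ n) :
    [∀ X : V, D.dim X ≤ n → D.ConjC X, ∀ X : V, D.dim X = n → D.KunnethIn (n - 1) X,
      ∀ i < n, ∀ X : V, D.KunnethIn i X].TFAE := by
  tfae_have 1 → 2 := fun hC X hX => hC X (by omega) (n - 1)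
  tfae_have 2 → 3 := by
    intro hL i hi X
    rw [WeilCoh.kunnethIn_iff h]
    refine kunI_all_dim (G := toPl h hP) (hF.div h) hc (lowSections h hP hS) (n := n) ?_ i hi X
    intro Y hY
    exact (WeilCoh.kunnethIn_iff h _ Y).mp (hL Y hY)
  tfae_have 3 → 1 := by
    intro hL X hX
    rw [WeilCoh.conjC_iff h, Cyc.kunnethC_iff]
    refine Cyc.kunI_all ?_
    intro i hi
    have hi' : i < D.dim X := hi
    exact (WeilCoh.kunnethIn_iff h i X).mp (hL i (by omega) X)
  tfae_finish

/-- `C_(2 i) ⇒ B_i ⇒ C_i` -/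
theorem chain (h : D.IsWeil) (hF : D.CoefficientsIn F) (hc : D.Connected)
    (hP : G.IsPolarized) (hS : G.HasSpreadingSections) (i : ℕ) :
    ((∀ X : V, D.KunnethIn (2 * i) X) → ∀ (X : V) (M : G.Bund X), G.LefschetzIn i M) ∧
      ((∀ (X : V) (M : G.Bund X), G.LefschetzIn i M) → ∀ X : V, D.KunnethIn i X) := by
  have h1 := tfae_lef h hF hc hP hS (n := i + 1) (by omega)
  have h2 := tfae_kun h hF hc hP hS (n := i + 1) (by omega)
  constructor
  · intro hC
    have h3 := (h1.out 5 2).mp (by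
      intro A B N M Y j hA hB hY
      obtain ⟨z, hz, h4, h5⟩ := hC Y
      refine ⟨z, hz, ?_, h5 _ (by omega)⟩
      rwa [show 2 * (i + 1) - 2 = 2 * i by omega])
    exact h3 i (by omega)
  · intro hB
    have h3 := (h1.out 1 0).mp (fun X M _ => hB X M)
    have h4 : ∀ X : V, D.dim X ≤ i + 1 → D.ConjC X := by
      intro X hX
      obtain ⟨M⟩ := hP.exists_bundle X
      exact conjC_of_lefB h hP ((conjB_iff h hP M).mp (h3 X M hX))
    have h5 : ∀ i' < i + 1, ∀ X : V, D.KunnethIn i' X := (h2.out 0 2).mp h4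
    exact h5 i (by omega)

end Polarization

end Pool.Std
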