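import Pool.Agent.Work.MP_a60482_dg.Deg
import Pool.Agent.Work.StdConj01.Reg2

/-!
From a very general hypersurface section to the variety, in a fixed degree.
-/

open CategoryTheory MonoidalCategory CartesianMonoidalCategory

universe u v w x b

namespace Pool.Std

open Pool.KC Pool.SL

variable {V : Type u} [Category.{v} V] [CartesianMonoidalCategory V] {K : Type x} [Field K]
variable {T : WeilTheory.{u, v, w, x} V K} {R : Cyc T} {G : Pl.{u, v, w, x, b} R}

/-- the algebraic classes on `Y × Y` of codimension less than `dim Y` have the intersection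
numbers of algebraic classes of `X × X` with all restricted classes -/
def SpreadI (R : Cyc T) {X Y : V} (i : Y ⟶ X) : Prop :=
  ∀ k < T.dim Y, ∀ z ∈ R.A (Y ⊗ Y) k, ∃ g ∈ R.A (X ⊗ X) k, ∀ a e : T.H X,
    T.tr (Y ⊗ Y) (T.pull (fst Y Y) (T.pull i a) * T.pull (snd Y Y) (T.pull i e) * z) =
    T.tr (Y ⊗ Y) (T.pull (fst Y Y) (T.pull i a) * T.pull (snd Y Y) (T.pull i e) *
      T.pull (sq i) g)

theorem tr_act_even {X Y : V} {k : ℕ} {z : T.H (X ⊗ Y)} (hz : z ∈ T.deg (X ⊗ Y) (2 * k))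
    (a : T.H X) (e : T.H Y) : T.tr Y (T.act z a * e) =
      T.tr (X ⊗ Y) (T.pull (fst X Y) a * T.pull (snd X Y) e * z) := by
  rw [T.tr_act, mul_assoc, T.even_comm hz, ← mul_assoc]

theorem Sect.lefI_up {X : V} {M : G.Bund X} (S : Sect R (G.c M)) (N : G.Bund S.Y)
    (hN : G.c N = T.pull S.i (G.c M)) (hs : SpreadI R S.i) {k : ℕ} (hk : k < T.dim S.Y)
    (h : G.LefI k N) : G.LefI k M := by
  intro _
  have hd := S.dim
  obtain ⟨_, ⟨z, hz, rfl⟩, hθ⟩ := h (by omega)
  obtain ⟨g, hg, hgz⟩ := hs k hk z hz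
  refine ⟨(S.r : K) • T.act g, Cyc.Op_smul S.r (Cyc.act_mem_Op hg), ?_⟩
  intro x hx
  have hcC : G.c M ∈ T.C X 1 := R.le (G.c_mem M)
  have key : ∀ a e : T.H X, T.tr S.Y (T.act z (T.pull S.i a) * T.pull S.i e) =
      (S.r : K) * ((S.r : K) * T.tr X (T.act g (G.c M * a) * e * G.c M)) := by
    intro a e
    rw [tr_act_even (R.deg hz), hgz, ← tr_act_even (R.deg (R.pull _ hg)),
      act_sq_pull S.i hcC S.tr g a, smul_mul_assoc, map_smul, ← map_mul, S.tr, smul_eq_mul,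
      G.c_comm M a]
  set w : T.H X := x - ((S.r : K) • T.act g) (G.c M ^ (T.dim X - k) * x) with hw
  have hpow : ∀ j, G.c N ^ j * T.pull S.i x = T.pull S.i (G.c M ^ j * x) := by
    intro j
    rw [hN, map_mul, map_pow]
  have h1 : ∀ e, T.tr X (w * G.c M * e) = 0 := by
    intro e
    have h2 := key (G.c M ^ (T.dim S.Y - k) * x) e
    rw [← hpow, hθ _ (T.pull_deg _ hx), ← map_mul, S.tr, ← mul_assoc (G.c M), ← pow_succ',
      show T.dim S.Y - k + 1 = T.dim X - k by omega] at h2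
    have h3 := mul_left_cancel₀ S.r_ne h2
    have h4 : w * G.c M * e = x * e * G.c M -
        (S.r : K) • (T.act g (G.c M ^ (T.dim X - k) * x) * e * G.c M) := by
      rw [hw, mul_assoc, G.c_comm, ← mul_assoc, sub_mul, sub_mul, LinearMap.smul_apply,
        smul_mul_assoc, smul_mul_assoc]
    rw [h4, map_sub, map_smul, smul_eq_mul, h3, sub_self]
  have h2 : w * G.c M = 0 := T.nondeg' h1
  have hwd : w ∈ T.deg X k := by
    refine sub_mem hx (Submodule.smul_mem _ _ ?_)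
    refine T.act_deg (R.deg hg) (i := 2 * (T.dim X - k) + k) (by omega) ?_
    exact T.mul_deg (G.c_pow_deg M _) hx
  have h3 : w = 0 := by
    apply G.hard_inj M (i := k) (k := T.dim X - k) (by omega) _ hwd
    rw [show T.dim X - k = (T.dim X - k - 1) + 1 by omega, pow_succ, mul_assoc, G.c_comm, h2,
      mul_zero]
  exact (sub_eq_zero.mp h3).symm

theorem Sect.lefI_down [CharZero K] {X : V} {M : G.Bund X} (S : Sect R (G.c M)) (N : G.Bund S.Y)
    (hN : G.c N = T.pull S.i (G.c M)) {k : ℕ} (hk : k < T.dim S.Y) (h : G.LefI k M) :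
    G.LefI k N := by
  intro _
  have hd := S.dim
  obtain ⟨θ, hθm, hθ⟩ := h (by omega)
  obtain ⟨J, hJ, hJ1, hJ2⟩ := exists_push (R := R) S.i S.dim (G.c_deg M) S.tr
  refine ⟨((S.r⁻¹ : ℚ) : K) • ((T.pull S.i).toLinearMap ∘ₗ (θ ∘ₗ J)),
    Cyc.Op_smul _ (Cyc.Op_comp (Cyc.Op_comp hJ hθm (t := k) rfl) (Cyc.Op_pull (R := R) S.i)
      (by omega)), ?_⟩
  intro y hy
  obtain ⟨x, hx, rfl⟩ := S.weak k hk y hy
  change ((S.r⁻¹ : ℚ) : K) • T.pull S.i (θ (J (G.c N ^ (T.dim S.Y - k) * T.pull S.i x))) = _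
  have hpow : G.c N ^ (T.dim S.Y - k) * T.pull S.i x =
      T.pull S.i (G.c M ^ (T.dim S.Y - k) * x) := by
    rw [hN, map_mul, map_pow]
  rw [hpow, hJ1, ← mul_assoc, ← pow_succ', show T.dim S.Y - k + 1 = T.dim X - k by omega,
    map_smul, hθ x hx, map_smul, smul_smul, Rat.cast_inv, inv_mul_cancel₀ S.r_ne, one_smul]

theorem Sect.kunI_up {X : V} {M : G.Bund X} (S : Sect R (G.c M)) {k : ℕ}
    (hk : k < T.dim S.Y) (h : R.KunI k S.Y) : R.KunI k X := by
  have hd := S.dim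
  obtain ⟨z, hz, hact0⟩ := h
  have hone : ∀ a ∈ T.deg S.Y k, T.act z a = a := fun a ha => by rw [hact0, T.proj_same ha]
  have hzero : ∀ j, j ≠ k → ∀ a ∈ T.deg S.Y j, T.act z a = 0 := fun j hj a ha => by
    rw [hact0, T.proj_ne ha hj]
  have hc := G.c_mem M
  obtain ⟨g0, hg0, hg0z⟩ := exists_of_mid (S.res_ne hc) (R.deg hz) (hzero _ (by omega))
  obtain ⟨g, hg, s, hgz⟩ := S.spread z hz ⟨g0, hg0, 0, by rw [zero_smul, add_zero, hg0z]⟩
  have hs : s = 0 := by
    have h1 : T.act z S.v = 0 := hzero _ (by omega) _ S.v_mem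
    rw [hgz, T.act_add, T.act_smul, LinearMap.add_apply, LinearMap.smul_apply,
      act_sq_van S.i g S.v_orth, zero_add, T.act_diag, LinearMap.id_apply] at h1
    exact (smul_eq_zero.mp h1).resolve_right S.v_ne
  rw [hs, zero_smul, add_zero] at hgz
  have hcC : G.c M ∈ T.C X 1 := R.le hc
  have hkill : ∀ w : T.H X, T.pull S.i w = 0 → G.c M * w = 0 := by
    intro w hw
    apply T.nondeg
    intro b
    have h5 := S.tr (b * w)
    rw [map_mul, hw, mul_zero, map_zero] at h5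
    rw [G.c_comm M w, ← mul_assoc]
    exact (mul_eq_zero.mp h5.symm).resolve_left S.r_ne
  have hact : ∀ ξ : T.H X, T.act z (T.pull S.i ξ) =
      (S.r : K) • T.pull S.i (T.act g (G.c M * ξ)) := by
    intro ξ
    have h3 := act_sq_pull S.i hcC S.tr g ξ
    rw [← G.c_comm M ξ, ← hgz] at h3
    exact h3
  set E : T.H X →ₗ[K] T.H X := (S.r : K) • (T.act g ∘ₗ LinearMap.mulLeft K (G.c M)) with hE
  have hEm : E ∈ R.Op X X (T.dim X) :=
    Cyc.Op_smul S.r (Cyc.Op_comp (Cyc.Op_mul hc) (Cyc.act_mem_Op hg) (by omega))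
  have hEa : ∀ ξ, E ξ = (S.r : K) • T.act g (G.c M * ξ) := fun ξ => rfl
  have hEp : ∀ ξ, T.pull S.i (E ξ) = T.act z (T.pull S.i ξ) := by
    intro ξ
    rw [hact, hEa, map_smul]
  have hEd : ∀ l, ∀ ξ ∈ T.deg X l, E ξ ∈ T.deg X l := fun l ξ hξ =>
    Cyc.Op_deg hEm (by omega) hξ
  -- injectivity below the middle
  have hinj : ∀ l < T.dim X, ∀ w ∈ T.deg X l, T.pull S.i w = 0 → w = 0 := by
    intro l hl w hw h0
    apply G.hard_inj M (i := l) (k := T.dim X - l) (by omega) _ hw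
    rw [show T.dim X - l = (T.dim X - l - 1) + 1 by omega, pow_succ, mul_assoc, hkill w h0,
      mul_zero]
  refine Cyc.kunI_of (u := E ∘ₗ E) (Cyc.Op_comp hEm hEm rfl) ?_ ?_
  · intro a ha
    have h1 : E a = a := by
      rw [← sub_eq_zero]
      apply hinj k (by omega) _ (sub_mem (hEd k a ha) ha)
      rw [map_sub, hEp, hone _ (T.pull_deg _ ha), sub_self]
    change E (E a) = a
    rw [h1, h1]
  · intro j hj a ha
    change E (E a) = 0
    have h0 : T.pull S.i (E a) = 0 := by rw [hEp, hzero j hj _ (T.pull_deg _ ha)]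
    rw [hEa (E a), hkill _ h0, map_zero, smul_zero]

end Pool.Std
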